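import Pool.Agent.Helper75.FS.St

/-!
# Project FS (MP_e73f90_co), module A2: smaller codimension
-/

set_option autoImplicit false

namespace Pool.Agent.Helper60.FS

open Pool.Agent.Helper75.FS

theorem hA2 : StA2 := by
  rintro n r c ⟨V, hV, hc⟩
  have hfin : ∀ W : Submodule (ZMod 2) (Fin n → ZMod 2),
      Nat.card W = 2 ^ Module.finrank (ZMod 2) W := by
    intro W
    have h := Module.natCard_eq_pow_finrank (K := ZMod 2) (V := W)
    rw [Nat.card_zmod] at h
    exact h
  have htop : V ≠ ⊤ := by
    rintro rfl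
    have h1 : Nat.card (⊤ : Submodule (ZMod 2) (Fin n → ZMod 2)) = 2 ^ n := by
      rw [hfin, finrank_top, Module.finrank_fin_fun]
    rw [h1, ← pow_add] at hc
    have h2 := Nat.pow_right_injective (le_refl 2) hc
    omega
  obtain ⟨x, hx⟩ : ∃ x, x ∉ V := by
    by_contra h
    push Not at h
    exact htop (Submodule.eq_top_iff'.2 h)
  have hx0 : x ≠ 0 := by
    rintro rfl
    exact hx V.zero_mem
  refine ⟨V ⊔ Submodule.span (ZMod 2) {x}, ?_, ?_⟩
  · intro y
    obtain ⟨v, hv, h⟩ := hV y
    exact ⟨v, Submodule.mem_sup_left hv, h⟩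
  · have hdis : Disjoint V (Submodule.span (ZMod 2) {x}) :=
      (Submodule.disjoint_span_singleton' hx0).2 hx
    have h1 := Submodule.finrank_sup_add_finrank_inf_eq V (Submodule.span (ZMod 2) {x})
    rw [hdis.eq_bot, finrank_bot, finrank_span_singleton hx0, add_zero] at h1
    rw [hfin] at hc ⊢
    rw [h1, ← pow_add]
    rw [← pow_add] at hc
    have h2 := Nat.pow_right_injective (le_refl 2) hc
    have h3 : Module.finrank (ZMod 2) V + 1 + c = n := by omega
    exact congrArg (fun k : ℕ => 2 ^ k) h3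

end Pool.Agent.Helper60.FS
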